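import Pool.Agent.H52.LG.Phi

/-! The core estimate for self-adjoint operators with integral finite block compressions. -/

set_option autoImplicit false
set_option linter.unusedSectionVars false
set_option linter.unusedVariables false
set_option linter.deprecated false

namespace Pool.Agent.H52.LG

open Pool.Agent.W242.IM
open scoped InnerProductSpace

noncomputable section

variable {H : Type} [NormedAddCommGroup H] [InnerProductSpace ℂ H] [CompleteSpace H]

theorem abs_le_of_spec {T : H →L[ℂ] H} {x : ℝ} (hx : x ∈ spectrum ℝ T) : |x| ≤ ‖T‖ := by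
  rcases subsingleton_or_nontrivial H with hs | hs
  · exfalso
    have : Subsingleton (H →L[ℂ] H) := inferInstance
    rw [spectrum.of_subsingleton] at hx
    exact hx
  · have := spectrum.norm_le_norm_of_mem hx
    rwa [Real.norm_eq_abs] at this

/-- a lower bound for a function of `T` -/
theorem form_le {T : H →L[ℂ] H} (hT : IsSelfAdjoint T) (f g : ℝ → ℝ) (hf : Continuous f)
    (hg : Continuous g) (h : ∀ x ∈ spectrum ℝ T, f x ≤ g x) (v : H) :
    (⟪v, cfc f T v⟫_ℂ).re ≤ (⟪v, cfc g T v⟫_ℂ).re := by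
  have h1 : cfc f T ≤ cfc g T := cfc_mono (fun x hx => h x hx) hf.continuousOn hg.continuousOn
  rw [ContinuousLinearMap.le_def] at h1
  have h2 := h1.inner_nonneg_right v
  rw [ContinuousLinearMap.sub_apply, inner_sub_right] at h2
  have h3 := (Complex.le_def.1 h2).1
  rw [Complex.zero_re, Complex.sub_re] at h3
  linarith

theorem cfc_affine {T : H →L[ℂ] H} (hT : IsSelfAdjoint T) (a b : ℝ) (v : H) :
    (⟪v, cfc (fun x : ℝ => a * x + b) T v⟫_ℂ).re = a * (⟪v, T v⟫_ℂ).re + b * ‖v‖ ^ 2 := by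
  have h1 : cfc (fun x : ℝ => a * x + b) T = a • T + algebraMap ℝ (H →L[ℂ] H) b := by
    rw [cfc_add (a := T) (fun x : ℝ => a * x) (fun _ => b) (by fun_prop) (by fun_prop),
      cfc_const_mul a (fun x : ℝ => x) T (by fun_prop), cfc_id' ℝ T, cfc_const b T]
  rw [h1, Algebra.algebraMap_eq_smul_one]
  simp only [ContinuousLinearMap.add_apply, ContinuousLinearMap.smul_apply,
    ContinuousLinearMap.one_apply, inner_add_right]
  rw [Complex.add_re]
  congr 1
  · rw [inner_smul_right_eq_smul, Complex.real_smul, Complex.re_ofReal_mul]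
  · rw [inner_smul_right_eq_smul, Complex.real_smul, Complex.re_ofReal_mul, inner_self_eq_norm_sq_to_K]
    norm_cast

/-- the value of a nonnegative function of `T` at a vector as a squared norm -/
theorem form_eq_sq {T : H →L[ℂ] H} (hT : IsSelfAdjoint T) (f : ℝ → ℝ) (hf : Continuous f)
    (h0 : ∀ x, 0 ≤ f x) (v : H) :
    (⟪v, cfc f T v⟫_ℂ).re = ‖cfc (fun x => Real.sqrt (f x)) T v‖ ^ 2 := by
  set S := cfc (fun x => Real.sqrt (f x)) T with hS
  have h1 : cfc f T = S * S := by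
    rw [hS, ← cfc_mul (a := T) _ _ (by fun_prop) (by fun_prop)]
    congr 1
    funext x
    exact (Real.mul_self_sqrt (h0 x)).symm
  have h2 : IsSelfAdjoint S := cfc_predicate _ _
  have h3 : ⟪v, S (S v)⟫_ℂ = ⟪S v, S v⟫_ℂ := by
    have := h2.adjoint_eq
    nth_rewrite 1 [← this]
    rw [ContinuousLinearMap.adjoint_inner_right]
  rw [h1, ContinuousLinearMap.mul_apply, h3, inner_self_eq_norm_sq_to_K]
  norm_cast

/-- the value at a combination of `n` vectors -/
theorem form_sum_le {ι : Type} {T : H →L[ℂ] H} (hT : IsSelfAdjoint T) (f : ℝ → ℝ)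
    (hf : Continuous f) (h0 : ∀ x, 0 ≤ f x) (F : Finset ι) (b : ι → H) (c : ι → ℂ) (M : ℝ)
    (hM : ∀ x ∈ F, (⟪b x, cfc f T (b x)⟫_ℂ).re ≤ M) :
    (⟪∑ x ∈ F, c x • b x, cfc f T (∑ x ∈ F, c x • b x)⟫_ℂ).re ≤ F.card * M * ∑ x ∈ F, ‖c x‖ ^ 2 := by
  rw [form_eq_sq hT f hf h0]
  set S := cfc (fun x => Real.sqrt (f x)) T with hS
  have h1 : ‖S (∑ x ∈ F, c x • b x)‖ ≤ ∑ x ∈ F, ‖c x‖ * ‖S (b x)‖ := by
    rw [map_sum]
    refine (norm_sum_le _ _).trans (Finset.sum_le_sum fun x _ => ?_)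
    rw [map_smul, norm_smul]
  have h2 : (∑ x ∈ F, ‖c x‖ * ‖S (b x)‖) ^ 2 ≤ F.card * ∑ x ∈ F, (‖c x‖ * ‖S (b x)‖) ^ 2 :=
    sq_sum_le_card_mul_sum_sq
  calc ‖S (∑ x ∈ F, c x • b x)‖ ^ 2 ≤ (∑ x ∈ F, ‖c x‖ * ‖S (b x)‖) ^ 2 :=
        pow_le_pow_left₀ (norm_nonneg _) h1 2
    _ ≤ F.card * ∑ x ∈ F, (‖c x‖ * ‖S (b x)‖) ^ 2 := h2
    _ ≤ F.card * ∑ x ∈ F, M * ‖c x‖ ^ 2 := by
        refine mul_le_mul_of_nonneg_left (Finset.sum_le_sum fun x hx => ?_) (Nat.cast_nonneg _)
        have h3 := hM x hx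
        rw [form_eq_sq hT f hf h0, ← hS] at h3
        rw [mul_pow, mul_comm M]
        exact mul_le_mul_of_nonneg_left h3 (by positivity)
    _ = F.card * M * ∑ x ∈ F, ‖c x‖ ^ 2 := by rw [← Finset.mul_sum]; ring

/-- the matrix of `T` in the rows of a finite type -/
def mat {ι κ : Type} (T : H →L[ℂ] H) (b : ι → H) (g : κ → ι) : Matrix κ κ ℂ :=
  Matrix.of fun x y => ⟪b (g x), T (b (g y))⟫_ℂ

theorem mat_hermitian {ι κ : Type} {T : H →L[ℂ] H} (hT : IsSelfAdjoint T) (b : ι → H) (g : κ → ι) :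
    (mat T b g).IsHermitian := by
  ext x y
  unfold mat
  rw [Matrix.conjTranspose_apply, Matrix.of_apply, Matrix.of_apply]
  have h1 : ⟪T (b (g x)), b (g y)⟫_ℂ = ⟪b (g x), T (b (g y))⟫_ℂ := by
    have := hT.adjoint_eq
    nth_rewrite 1 [← this]
    rw [ContinuousLinearMap.adjoint_inner_left]
  rw [← h1]
  exact (inner_conj_symm _ _)

theorem qf_mat {ι κ : Type} [Fintype κ] (T : H →L[ℂ] H) (b : ι → H) (g : κ → ι) (c : κ → ℂ) :
    qf (mat T b g) c = (⟪∑ x, c x • b (g x), T (∑ x, c x • b (g x))⟫_ℂ).re := by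
  classical
  have key : ⟪∑ x, c x • b (g x), T (∑ x, c x • b (g x))⟫_ℂ =
      ∑ i, ∑ j, star (c i) * mat T b g i j * c j := by
    rw [map_sum, sum_inner]
    refine Finset.sum_congr rfl fun i _ => ?_
    rw [inner_sum]
    refine Finset.sum_congr rfl fun j _ => ?_
    rw [map_smul, inner_smul_left, inner_smul_right]
    show _ = star (c i) * ⟪b (g i), T (b (g j))⟫_ℂ * c j
    rw [RCLike.star_def]
    ring
  rw [key, qf_eq_sum, Complex.re_sum]
  refine Finset.sum_congr rfl fun i _ => ?_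
  rw [Complex.re_sum]

theorem nsq_comb {ι κ : Type} [Fintype κ] (b : ι → H) (hb : Orthonormal ℂ b)
    (g : κ → ι) (hg : Function.Injective g) (c : κ → ℂ) :
    nsq c = ‖∑ x, c x • b (g x)‖ ^ 2 := by
  have h1 : Orthonormal ℂ (fun x => b (g x)) := hb.comp g hg
  have h2 := h1.inner_sum c c Finset.univ
  rw [inner_self_eq_norm_sq_to_K] at h2
  have h3 : ((‖∑ x, c x • b (g x)‖ ^ 2 : ℝ) : ℂ) = ((nsq c : ℝ) : ℂ) := by
    rw [nsq_eq]
    unfold dotProduct
    simpa using h2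
  exact_mod_cast h3.symm

end

end Pool.Agent.H52.LG
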