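import Pool.Agent.H52.LG.Inv

/-! Finite groups acting freely. -/

set_option autoImplicit false
set_option linter.unusedSectionVars false
set_option linter.unusedVariables false
set_option linter.deprecated false

namespace Pool.Agent.H52.LG

open Pool.Agent.W242.IM Polynomial
open Pool.Agent.H261R2.CM (toC)
open scoped InnerProductSpace

noncomputable section

variable {ι : Type} [Fintype ι] [DecidableEq ι]

theorem sum_cfc {A : Matrix ι ι ℂ} (hA : A.IsHermitian) (f : ℝ → ℝ) (hf : Continuous f) :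
    ∑ i, (⟪EuclideanSpace.basisFun ι ℂ i, cfc f (Matrix.toEuclideanCLM (𝕜 := ℂ) A)
      (EuclideanSpace.basisFun ι ℂ i)⟫_ℂ).re = ∑ j, f (hA.eigenvalues j) := by
  have hsa : IsSelfAdjoint A := hA
  have h1 : Matrix.toEuclideanCLM (𝕜 := ℂ) (cfc f A) = cfc f (Matrix.toEuclideanCLM (𝕜 := ℂ) A) := by
    refine StarAlgHomClass.map_cfc (S := ℂ) (Matrix.toEuclideanCLM (n := ι) (𝕜 := ℂ)) f A
      hf.continuousOn ?_ hsa ?_
    · exact LinearMap.continuous_of_finiteDimensional
        ((Matrix.toEuclideanCLM (n := ι) (𝕜 := ℂ)).toAlgEquiv.toLinearMap)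
    · exact hsa.map _
  rw [← h1]
  have h2 : ∀ (B : Matrix ι ι ℂ) (i : ι), ⟪EuclideanSpace.basisFun ι ℂ i,
      Matrix.toEuclideanCLM (𝕜 := ℂ) B (EuclideanSpace.basisFun ι ℂ i)⟫_ℂ = B i i := by
    intro B i
    rw [EuclideanSpace.basisFun_apply, EuclideanSpace.inner_single_left]
    simp [Matrix.ofLp_toEuclideanCLM, Matrix.mulVec_single]
  simp only [h2]
  rw [← Complex.re_sum]
  have h3 : ∑ i, cfc f A i i = ((∑ j, f (hA.eigenvalues j) : ℝ) : ℂ) := by
    have h4 : ∑ i, cfc f A i i = (cfc f A).trace := rfl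
    rw [h4, hA.cfc_eq f, Matrix.IsHermitian.cfc, Unitary.conjStarAlgAut_apply,
      Matrix.trace_mul_comm, ← mul_assoc]
    rw [Unitary.coe_star_mul_self, one_mul, Matrix.trace_diagonal]
    push_cast
    rfl
  rw [h3, Complex.ofReal_re]

theorem mat_basis {A : Matrix ι ι ℂ} {κ : Type} (g : κ → ι) :
    mat (Matrix.toEuclideanCLM (𝕜 := ℂ) A) (EuclideanSpace.basisFun ι ℂ) g = A.submatrix g g := by
  ext x y
  unfold mat
  rw [Matrix.of_apply, EuclideanSpace.basisFun_apply, EuclideanSpace.basisFun_apply,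
    EuclideanSpace.inner_single_left]
  simp [Matrix.ofLp_toEuclideanCLM, Matrix.mulVec_single]

/-- the gap for finite groups acting freely -/
theorem finite_gap (k : ℕ) : ∃ c : ℝ, 0 < c ∧ ∀ (G : Type) [Group G] [Fintype G] (X : Type)
    [Fintype X] [DecidableEq X] [MulAction G X], (∀ (g : G) (x : X), g • x = x → g = 1) →
    ∀ (A : Matrix (X × Fin k) (X × Fin k) ℂ) (hA : A.IsHermitian),
    (∀ V : Finset X, ∃ P : ℤ[X], P.map (Int.castRingHom ℂ) =
      (A.submatrix (fun x : V × Fin k => (x.1.1, x.2)) (fun x => (x.1.1, x.2))).charpoly) →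
    (∀ (g : G) (x y : X) (i j : Fin k), A (g • x, i) (g • y, j) = A (x, i) (y, j)) →
    (∀ j, |hA.eigenvalues j| ≤ 2) ∨ c * Fintype.card G ≤ ∑ j, exc (hA.eigenvalues j) := by
  obtain ⟨c, hc, h⟩ := gap_core k
  refine ⟨c, hc, ?_⟩
  intro G _ _ X _ _ _ hfree A hA hI hinv
  classical
  by_cases hcyc : ∀ j, |hA.eigenvalues j| ≤ 2
  · exact Or.inl hcyc
  right
  set H := EuclideanSpace ℂ (X × Fin k)
  set T : H →L[ℂ] H := Matrix.toEuclideanCLM (𝕜 := ℂ) A with hT
  have hsa : IsSelfAdjoint A := hA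
  have hTs : IsSelfAdjoint T := hsa.map _
  set b : X × Fin k → H := fun x => EuclideanSpace.basisFun (X × Fin k) ℂ x with hb
  have hbo : Orthonormal ℂ b := (EuclideanSpace.basisFun (X × Fin k) ℂ).orthonormal
  have hItg : Itgl k b T := by
    intro V
    obtain ⟨P, hP⟩ := hI V
    refine ⟨P, ?_⟩
    rw [hP]
    have : mat T b (fun x : V × Fin k => (x.1.1, x.2)) =
        A.submatrix (fun x : V × Fin k => (x.1.1, x.2)) (fun x => (x.1.1, x.2)) := mat_basis _
    rw [this]
    exact charpoly_inst _ _ _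
  -- a noncyclotomic piece
  have hU : ∃ (U : Finset X) (y : U × Fin k → ℂ),
      2 * nsq y < |qf (mat T b fun x : U × Fin k => (x.1.1, x.2)) y| := by
    push Not at hcyc
    obtain ⟨j, hj⟩ := hcyc
    obtain ⟨z, hz1, hz2⟩ := exists_eigen (sd_of_hermitian hA) j
    let e : ↥(Finset.univ : Finset X) × Fin k → X × Fin k := fun x => (x.1.1, x.2)
    have he : Function.Bijective e := by
      constructor
      · rintro ⟨⟨x, hx⟩, i⟩ ⟨⟨x', hx'⟩, i'⟩ h
        have h3 := (Prod.mk.injEq _ _ _ _).mp h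
        have h4 := h3.1
        have h5 := h3.2
        simp only at h4 h5
        subst h4
        subst h5
        rfl
      · rintro ⟨u, i⟩
        exact ⟨(⟨u, Finset.mem_univ _⟩, i), rfl⟩
    refine ⟨Finset.univ, z ∘ e, ?_⟩
    have h4 : nsq (z ∘ e) = nsq z := by
      unfold nsq
      exact Function.Bijective.sum_comp he fun x => ‖z x‖ ^ 2
    have h5 : qf (mat T b e) (z ∘ e) = qf A z := by
      rw [show mat T b e = A.submatrix e e from mat_basis e, qf_eq_sum, qf_eq_sum]
      calc _ = ∑ i, ∑ j, (star (z (e i)) * A (e i) (e j) * z (e j)).re := rfl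
        _ = ∑ i, ∑ j, (star (z (e i)) * A (e i) j * z j).re :=
          Finset.sum_congr rfl fun i _ => Function.Bijective.sum_comp he fun j =>
            (star (z (e i)) * A (e i) j * z j).re
        _ = _ := Function.Bijective.sum_comp he fun i => ∑ j, (star (z i) * A i j * z j).re
    show 2 * nsq (z ∘ e) < |qf (mat T b e) (z ∘ e)|
    rw [h4, h5, hz1, hz2, mul_one]
    exact hj
  set q : X × Fin k → ℝ := fun x => (⟪b x, cfc exc T (b x)⟫_ℂ).re with hq
  have hq0 : ∀ x, 0 ≤ q x := fun x => by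
    show 0 ≤ (⟪b x, cfc exc T (b x)⟫_ℂ).re
    rw [form_eq_sq hTs exc continuous_exc exc_nonneg]
    positivity
  have hsum : ∑ x, q x = ∑ j, exc (hA.eigenvalues j) := sum_cfc hA exc continuous_exc
  have hG : (0 : ℝ) < Fintype.card G := by
    have : 0 < Fintype.card G := Fintype.card_pos_iff.2 ⟨1⟩
    exact_mod_cast this
  have hqinv : ∀ (g : G) (x : X) (i : Fin k), q (g • x, i) = q (x, i) := by
    intro g x i
    let σ : X × Fin k ≃ X × Fin k := (MulAction.toPerm g).prodCongr (Equiv.refl _)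
    let B : HilbertBasis (X × Fin k) ℂ H := (EuclideanSpace.basisFun (X × Fin k) ℂ).toHilbertBasis
    have hB : ∀ x, B x = b x := fun x => by
      rw [hb]
      exact congrFun (OrthonormalBasis.coe_toHilbertBasis _) x
    have h1 := diag_invariant B (T := T) σ (fun x y => by
      rw [hB, hB, hB, hB]
      have h2 : ∀ x y, ⟪b x, T (b y)⟫_ℂ = A x y := fun x y => by
        have := congrFun (congrFun (mat_basis (A := A) (id : X × Fin k → X × Fin k)) x) y
        exact this
      rw [h2, h2]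
      exact hinv g x.1 y.1 x.2 y.2) exc (x, i)
    rw [hB, hB] at h1
    show (⟪b (g • x, i), cfc exc T (b (g • x, i))⟫_ℂ).re = _
    exact congrArg Complex.re h1
  have hM : ∀ x, q x ≤ (∑ x, q x) / Fintype.card G := by
    rintro ⟨x, i⟩
    rw [le_div_iff₀ hG]
    have hinj : Function.Injective fun g : G => ((g • x, i) : X × Fin k) := by
      intro g g' hgg
      have h1 : g • x = g' • x := congrArg Prod.fst hgg
      have h2 : (g'⁻¹ * g) • x = x := by rw [mul_smul, h1, inv_smul_smul]
      have h3 := hfree _ _ h2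
      exact (inv_mul_eq_one.1 h3).symm
    calc q (x, i) * Fintype.card G = ∑ g : G, q (g • x, i) := by
          simp only [hqinv, Finset.sum_const, Finset.card_univ, nsmul_eq_mul]
          ring
      _ = ∑ y ∈ Finset.univ.image (fun g : G => ((g • x, i) : X × Fin k)), q y := by
          rw [Finset.sum_image fun _ _ _ _ h => hinj h]
      _ ≤ ∑ y, q y := Finset.sum_le_sum_of_subset_of_nonneg (Finset.subset_univ _)
          fun y _ _ => hq0 y
  have h1 := h H X b hbo T hTs hItg hU _ hM
  rw [le_div_iff₀ hG, hsum] at h1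
  exact h1

end

end Pool.Agent.H52.LG
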