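import Pool.Agent.H52.LG.Core
import Pool.Graph.R_seed8.W242.IM.Final

/-! The gap for the diagonal coefficients of the excess `(|T| - 2)₊`. -/

set_option autoImplicit false
set_option linter.unusedSectionVars false
set_option linter.unusedVariables false

namespace Pool.Agent.H52.LG

open Pool.Agent.W242.IM Polynomial
open Pool.Agent.H261R2.CM (toC)
open scoped InnerProductSpace

noncomputable section

variable {H : Type} [NormedAddCommGroup H] [InnerProductSpace ℂ H] [CompleteSpace H]

/-- integrality of all finite block compressions -/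
def Itgl {B₀ : Type} (k : ℕ) (b : B₀ × Fin k → H) (T : H →L[ℂ] H) : Prop :=
  ∀ V : Finset B₀, ∃ P : ℤ[X], P.map (Int.castRingHom ℂ) =
    (@Matrix.charpoly ℂ _ (V × Fin k) (Classical.decEq _) _
      (mat T b fun x : V × Fin k => (x.1.1, x.2)))

theorem charpoly_inst {ι : Type} [Fintype ι] (d d' : DecidableEq ι) (A : Matrix ι ι ℂ) :
    @Matrix.charpoly ℂ _ ι d _ A = @Matrix.charpoly ℂ _ ι d' _ A := by
  rw [Subsingleton.elim d d']

theorem itg_inj {B₀ : Type} {k : ℕ} {b : B₀ × Fin k → H} {T : H →L[ℂ] H} (hI : Itgl k b T)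
    {κ : Type} [Fintype κ] [DecidableEq κ] (g : κ → B₀) (hg : Function.Injective g) :
    ∃ P : ℤ[X], toC P = (mat T b fun x : κ × Fin k => (g x.1, x.2)).charpoly := by
  classical
  obtain ⟨V, hV⟩ : ∃ V : Finset B₀, V = Finset.univ.image g := ⟨_, rfl⟩
  obtain ⟨P, hP⟩ := hI V
  refine ⟨P, ?_⟩
  let e : κ ≃ V := Equiv.ofBijective
    (fun x => ⟨g x, by rw [hV]; exact Finset.mem_image_of_mem g (Finset.mem_univ x)⟩)
    ⟨fun x y h => hg (congrArg Subtype.val h), fun ⟨y, hy⟩ => by
        have hy' := hy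
        rw [hV] at hy'
        obtain ⟨x, -, rfl⟩ := Finset.mem_image.1 hy'
        exact ⟨x, rfl⟩⟩
  let e2 : κ × Fin k ≃ V × Fin k := e.prodCongr (Equiv.refl _)
  have h1 := Matrix.charpoly_reindex e2 (mat T b fun x : κ × Fin k => (g x.1, x.2))
  rw [← h1]
  have h2 : (Matrix.reindex e2 e2) (mat T b fun x : κ × Fin k => (g x.1, x.2)) =
      mat T b fun x : V × Fin k => (x.1.1, x.2) := by
    ext x y
    rw [Matrix.reindex_apply, Matrix.submatrix_apply]
    have hx : ∀ x, (g (e2.symm x).1, (e2.symm x).2) = (x.1.1, x.2) := by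
      intro x
      have h3 : e2 (e2.symm x) = x := e2.apply_symm_apply x
      have h4 := congrArg (fun z : V × Fin k => (z.1.1, z.2)) h3
      exact h4
    show ⟪b (g (e2.symm x).1, (e2.symm x).2), T (b (g (e2.symm y).1, (e2.symm y).2))⟫_ℂ = _
    rw [hx, hx]
    rfl
  rw [h2]
  unfold toC
  rw [hP]
  exact charpoly_inst _ _ _

theorem gap_core (k : ℕ) : ∃ c : ℝ, 0 < c ∧ ∀ (H : Type) [NormedAddCommGroup H]
    [InnerProductSpace ℂ H] [CompleteSpace H] (B₀ : Type) (b : B₀ × Fin k → H)
    (_ : Orthonormal ℂ b) (T : H →L[ℂ] H) (_ : IsSelfAdjoint T) (_ : Itgl k b T)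
    (_ : ∃ (U : Finset B₀) (y : U × Fin k → ℂ),
      2 * nsq y < |qf (mat T b fun x : U × Fin k => (x.1.1, x.2)) y|)
    (M : ℝ) (_ : ∀ x, (⟪b x, cfc exc T (b x)⟫_ℂ).re ≤ M), c ≤ M := by
  obtain ⟨N, μ, hμ, hsmall⟩ := fin_small k
  have hlog : 0 < Real.log μ := Real.log_pos hμ
  set η : ℝ := Real.log μ / (N * k + 1) with hη
  have hη0 : 0 < η := by positivity
  obtain ⟨s, hs, hs2⟩ := exists_excess η hη0
  refine ⟨s / (N * k + 1), by positivity, ?_⟩
  intro H _ _ _ B₀ b hb T hT hI ⟨U, y, hy⟩ M hM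
  classical
  -- enumerate `U`
  let e : Fin U.card ≃ U := U.equivFin.symm
  set A : Matrix (Fin U.card × Fin k) (Fin U.card × Fin k) ℂ :=
    mat T b fun x => ((e x.1).1, x.2) with hA
  have hAh : A.IsHermitian := mat_hermitian hT _ _
  have hinj : Function.Injective fun x : Fin U.card => (e x).1 :=
    Subtype.val_injective.comp e.injective
  have hblk : ∀ V : Finset (Fin U.card), blk A V =
      mat T b fun x : V × Fin k => ((e x.1.1).1, x.2) := fun V => rfl
  have hAI : ∀ V : Finset (Fin U.card), ∃ P : ℤ[X], toC P = (blk A V).charpoly := by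
    intro V
    rw [hblk]
    exact itg_inj hI (fun x : V => (e x.1).1) (hinj.comp Subtype.val_injective)
  have hbH : ∀ V : Finset (Fin U.card), (blk A V).IsHermitian := fun V => mat_hermitian hT _ _
  -- `A` is not cyclotomic
  have hne : MM (blk A Finset.univ).charpoly ≠ 1 := by
    intro h1
    rw [MM_charpoly (hAI _)] at h1
    have h2 : mp (blk A Finset.univ).charpoly = 0 := by
      have := congrArg Real.log h1
      rwa [Real.log_exp, Real.log_one] at this
    let e3 : ↥(Finset.univ : Finset (Fin U.card)) × Fin k → U × Fin k := fun x => (e x.1.1, x.2)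
    have he3 : Function.Bijective e3 := by
      constructor
      · rintro ⟨⟨x, hx⟩, i⟩ ⟨⟨x', hx'⟩, i'⟩ h
        have h3 := (Prod.mk.injEq _ _ _ _).mp h
        have h4 := e.injective h3.1
        have h5 := h3.2
        simp only at h4 h5
        subst h4
        subst h5
        rfl
      · rintro ⟨u, i⟩
        refine ⟨(⟨e.symm u, Finset.mem_univ _⟩, i), ?_⟩
        show (e (e.symm u), i) = _
        rw [e.apply_symm_apply]
    have h3 := qf_le_of_cyc (hbH Finset.univ) h2 (y ∘ e3)
    have h4 : nsq (y ∘ e3) = nsq y := by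
      unfold nsq
      exact Function.Bijective.sum_comp he3 fun x => ‖y x‖ ^ 2
    have h5 : qf (blk A Finset.univ) (y ∘ e3) =
        qf (mat T b fun x : U × Fin k => (x.1.1, x.2)) y := by
      rw [qf_eq_sum, qf_eq_sum]
      have h6 : ∀ i j, blk A Finset.univ i j =
          mat T b (fun x : U × Fin k => (x.1.1, x.2)) (e3 i) (e3 j) := fun i j => rfl
      calc _ = ∑ i, ∑ j, (star (y (e3 i)) *
            mat T b (fun x : U × Fin k => (x.1.1, x.2)) (e3 i) (e3 j) * y (e3 j)).re := rfl
        _ = ∑ i, ∑ j, (star (y (e3 i)) *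
            mat T b (fun x : U × Fin k => (x.1.1, x.2)) (e3 i) j * y j).re :=
          Finset.sum_congr rfl fun i _ => Function.Bijective.sum_comp he3 fun j =>
            (star (y (e3 i)) * mat T b (fun x : U × Fin k => (x.1.1, x.2)) (e3 i) j * y j).re
        _ = _ := Function.Bijective.sum_comp he3 fun i => ∑ j,
            (star (y i) * mat T b (fun x : U × Fin k => (x.1.1, x.2)) i j * y j).re
    rw [h4, h5] at h3
    linarith
  obtain ⟨V, -, hV1, hV2⟩ := hsmall _ A hAh hAI Finset.univ hne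
  rw [MM_charpoly (hAI _)] at hV2
  have h1 : Real.log μ ≤ mp (blk A V).charpoly := by
    have := Real.log_le_log (by linarith) hV2
    rwa [Real.log_exp] at this
  rw [(mp_charpoly (hbH V)).2] at h1
  have hcard : (Fintype.card (V × Fin k) : ℝ) ≤ N * k := by
    rw [Fintype.card_prod, Fintype.card_coe, Fintype.card_fin]
    push_cast
    exact mul_le_mul_of_nonneg_right (by exact_mod_cast hV1) (Nat.cast_nonneg k)
  obtain ⟨j, hj⟩ : ∃ j, η ≤ phi ((hbH V).eigenvalues j) := by
    by_contra hcon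
    push Not at hcon
    have h2 : ∑ j, phi ((hbH V).eigenvalues j) ≤ ∑ _j : V × Fin k, η :=
      Finset.sum_le_sum fun j _ => (hcon j).le
    rw [Finset.sum_const, nsmul_eq_mul, Finset.card_univ] at h2
    have h3 : (Fintype.card (V × Fin k) : ℝ) * η ≤ N * k * η :=
      mul_le_mul_of_nonneg_right hcard hη0.le
    have h4 : (N * k + 1) * η = Real.log μ := by
      rw [hη]
      field_simp
    nlinarith
  have hl := hs2 _ hj
  obtain ⟨z, hz1, hz2⟩ := exists_eigen (sd_of_hermitian (hbH V)) j
  set g : V × Fin k → B₀ × Fin k := fun x => ((e x.1.1).1, x.2) with hg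
  have hginj : Function.Injective g := by
    rintro ⟨⟨x, hx⟩, i⟩ ⟨⟨x', hx'⟩, i'⟩ h
    have h3 := (Prod.mk.injEq _ _ _ _).mp h
    have h4 := hinj h3.1
    have h5 := h3.2
    simp only at h4 h5
    subst h4
    subst h5
    rfl
  set v : H := ∑ x, z x • b (g x) with hv
  have hvn : ‖v‖ ^ 2 = 1 := by
    rw [hv, ← nsq_comb b hb g hginj z, hz1]
  have hvT : (⟪v, T v⟫_ℂ).re = (hbH V).eigenvalues j := by
    rw [hv, ← qf_mat T b g z, ← hz2]
    rfl
  have hup : (⟪v, cfc exc T v⟫_ℂ).re ≤ (N * k) * M := by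
    have h2 := form_sum_le hT exc continuous_exc exc_nonneg (Finset.univ : Finset (V × Fin k))
      (fun x => b (g x)) z M fun x _ => hM (g x)
    have h3 : ∑ x, ‖z x‖ ^ 2 = 1 := hz1
    rw [h3, mul_one, Finset.card_univ] at h2
    have hM0 : 0 ≤ M := by
      by_contra hcon
      push Not at hcon
      have : (0 : ℝ) ≤ (⟪b (g j), cfc exc T (b (g j))⟫_ℂ).re := by
        rw [form_eq_sq hT exc continuous_exc exc_nonneg]
        positivity
      linarith [hM (g j)]
    exact h2.trans (mul_le_mul_of_nonneg_right hcard hM0)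
  have hlow : s ≤ (⟪v, cfc exc T v⟫_ℂ).re := by
    rcases le_abs.1 hl with h2 | h2
    · have h3 := form_le hT (fun x => 1 * x + (-2)) exc (by fun_prop) continuous_exc
        (fun x _ => by linarith [le_exc x]) v
      rw [cfc_affine hT, hvn, hvT] at h3
      linarith
    · have h3 := form_le hT (fun x => (-1) * x + (-2)) exc (by fun_prop) continuous_exc
        (fun x _ => by linarith [neg_le_exc x]) v
      rw [cfc_affine hT, hvn, hvT] at h3
      linarith
  have hM0 : 0 < M := by
    by_contra hcon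
    push Not at hcon
    have : (N * k : ℝ) * M ≤ 0 := mul_nonpos_of_nonneg_of_nonpos (by positivity) hcon
    linarith
  rw [div_le_iff₀ (by positivity)]
  linarith

end

end Pool.Agent.H52.LG
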