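import Pool.Agent.H52.LG.Gap

/-! Norms and invariance under translations. -/

set_option autoImplicit false
set_option linter.unusedSectionVars false
set_option linter.unusedVariables false
set_option linter.deprecated false

namespace Pool.Agent.H52.LG

open Pool.Agent.W242.IM Polynomial
open Pool.Agent.H261R2.CM (toC)
open scoped InnerProductSpace

noncomputable section

variable {H : Type} [NormedAddCommGroup H] [InnerProductSpace ℂ H] [CompleteSpace H]

/-- the form of a self-adjoint operator is real -/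
theorem inner_re_eq {T : H →L[ℂ] H} (hT : IsSelfAdjoint T) (v : H) :
    ⟪v, T v⟫_ℂ = (((⟪v, T v⟫_ℂ).re : ℝ) : ℂ) := by
  have h1 : ⟪T v, v⟫_ℂ = ⟪v, T v⟫_ℂ := by
    have := hT.adjoint_eq
    nth_rewrite 1 [← this]
    rw [ContinuousLinearMap.adjoint_inner_left]
  have h2 : (starRingEnd ℂ) ⟪v, T v⟫_ℂ = ⟪v, T v⟫_ℂ := by
    rw [inner_conj_symm, h1]
  exact (Complex.conj_eq_iff_real.1 h2).elim fun r hr => by rw [hr, Complex.ofReal_re]

theorem le_const {T : H →L[ℂ] H} (hT : IsSelfAdjoint T) (r : ℝ)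
    (h : ∀ v, (⟪v, T v⟫_ℂ).re ≤ r * ‖v‖ ^ 2) : ∀ x ∈ spectrum ℝ T, x ≤ r := by
  rw [← le_algebraMap_iff_spectrum_le, ContinuousLinearMap.le_def,
    ContinuousLinearMap.isPositive_def']
  refine ⟨(IsSelfAdjoint.algebraMap _ (IsSelfAdjoint.all r)).sub hT, fun v => ?_⟩
  have h1 := h v
  rw [ContinuousLinearMap.reApplyInnerSelf_apply, Algebra.algebraMap_eq_smul_one,
    ContinuousLinearMap.sub_apply, ContinuousLinearMap.smul_apply, ContinuousLinearMap.one_apply,
    inner_sub_left, map_sub, sub_nonneg]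
  have h2 : RCLike.re ⟪T v, v⟫_ℂ = (⟪v, T v⟫_ℂ).re := by
    rw [← inner_conj_symm, RCLike.conj_re]
    rfl
  rw [h2]
  have h3 : RCLike.re ⟪r • v, v⟫_ℂ = r * ‖v‖ ^ 2 := by
    rw [← inner_conj_symm, RCLike.conj_re, inner_smul_right_eq_smul, inner_self_eq_norm_sq_to_K]
    show (r • ((‖v‖ : ℂ) ^ 2)).re = _
    rw [Complex.real_smul, Complex.re_ofReal_mul]
    norm_cast
  rw [h3]
  exact h1

theorem norm_le_two {T : H →L[ℂ] H} (hT : IsSelfAdjoint T)
    (h : ∀ v, |(⟪v, T v⟫_ℂ).re| ≤ 2 * ‖v‖ ^ 2) :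
    (∀ x ∈ spectrum ℝ T, |x| ≤ 2) ∧ ‖T‖ ≤ 2 := by
  have h1 : ∀ x ∈ spectrum ℝ T, x ≤ 2 := le_const hT 2 fun v => (abs_le.1 (h v)).2
  have h2 : ∀ x ∈ spectrum ℝ (-T), x ≤ 2 := le_const hT.neg 2 fun v => by
    rw [ContinuousLinearMap.neg_apply, inner_neg_right, Complex.neg_re]
    linarith [(abs_le.1 (h v)).1]
  have h3 : ∀ x ∈ spectrum ℝ T, |x| ≤ 2 := by
    intro x hx
    rw [abs_le]
    refine ⟨?_, h1 x hx⟩
    have := h2 (-x) (by rw [← spectrum.neg_eq]; simpa using hx)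
    linarith
  refine ⟨h3, ?_⟩
  have h4 : ‖cfc (fun x : ℝ => x) T‖ ≤ 2 := norm_cfc_le two_pos.le fun x hx => by
    rw [Real.norm_eq_abs]
    exact h3 x hx
  rwa [cfc_id' ℝ T] at h4

/-- the form bound for finite combinations of basis vectors gives it for all vectors -/
theorem form_bound_of_finite {B₀ : Type} {k : ℕ} (b : HilbertBasis (B₀ × Fin k) ℂ H)
    (T : H →L[ℂ] H)
    (h : ∀ (U : Finset B₀) (y : U × Fin k → ℂ),
      |qf (mat T b fun x : U × Fin k => (x.1.1, x.2)) y| ≤ 2 * nsq y) (v : H) :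
    |(⟪v, T v⟫_ℂ).re| ≤ 2 * ‖v‖ ^ 2 := by
  classical
  have hcl : IsClosed {v : H | |(⟪v, T v⟫_ℂ).re| ≤ 2 * ‖v‖ ^ 2} :=
    isClosed_le (by fun_prop) (by fun_prop)
  have hd := b.dense_span
  have hsub : (Submodule.span ℂ (Set.range b) : Set H) ⊆
      {v : H | |(⟪v, T v⟫_ℂ).re| ≤ 2 * ‖v‖ ^ 2} := by
    intro v hv
    obtain ⟨c, rfl⟩ := (Finsupp.mem_span_range_iff_exists_finsupp).1 hv
    -- blocks
    set U : Finset B₀ := c.support.image Prod.fst with hU
    set y : U × Fin k → ℂ := fun x => c (x.1.1, x.2) with hy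
    set g : U × Fin k → B₀ × Fin k := fun x => (x.1.1, x.2) with hg
    have hginj : Function.Injective g := by
      rintro ⟨⟨x, hx⟩, i⟩ ⟨⟨x', hx'⟩, i'⟩ h
      have h3 := (Prod.mk.injEq _ _ _ _).mp h
      have h4 := h3.1
      have h5 := h3.2
      simp only at h4 h5
      subst h4
      subst h5
      rfl
    have h1 : (c.sum fun i a => a • b i) = ∑ x, y x • b (g x) := by
      rw [Finsupp.sum]
      have h2 : ∑ x, y x • b (g x) = ∑ z ∈ Finset.univ.image g, c z • b z := by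
        rw [Finset.sum_image fun _ _ _ _ h => hginj h]
      rw [h2]
      refine Finset.sum_subset ?_ ?_
      · intro z hz
        refine Finset.mem_image.2 ⟨(⟨z.1, Finset.mem_image_of_mem _ hz⟩, z.2), Finset.mem_univ _, rfl⟩
      · intro z _ hz
        rw [Finsupp.notMem_support_iff.1 hz, zero_smul]
    show |(⟪(c.sum fun i a => a • b i), T (c.sum fun i a => a • b i)⟫_ℂ).re| ≤
      2 * ‖(c.sum fun i a => a • b i)‖ ^ 2
    rw [h1, ← qf_mat T b g y, ← nsq_comb b b.orthonormal g hginj y]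
    exact h U y
  have : closure (Submodule.span ℂ (Set.range b) : Set H) ⊆ _ := closure_minimal hsub hcl
  apply this
  have h5 : v ∈ (Submodule.span ℂ (Set.range b)).topologicalClosure := by
    rw [hd]
    trivial
  exact h5

/-- the unitary operator given by a permutation of the basis -/
def perm {ι : Type} (b : HilbertBasis ι ℂ H) (σ : ι ≃ ι) : H ≃ₗᵢ[ℂ] H :=
  b.repr.trans (HilbertBasis.mk (v := fun i => b (σ i)) (b.orthonormal.comp σ σ.injective) (by
    have : Set.range (fun i => b (σ i)) = Set.range b := by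
      rw [← Function.comp_def, σ.surjective.range_comp]
    rw [this, b.dense_span])).repr.symm

theorem perm_apply {ι : Type} (b : HilbertBasis ι ℂ H) (σ : ι ≃ ι) (i : ι) :
    perm b σ (b i) = b (σ i) := by
  classical
  unfold perm
  rw [LinearIsometryEquiv.trans_apply, HilbertBasis.repr_self, HilbertBasis.repr_symm_single]
  exact congrFun (HilbertBasis.coe_mk _ _) i

theorem ext_basis {ι : Type} (b : HilbertBasis ι ℂ H) {x y : H} (h : ∀ i, ⟪b i, x⟫_ℂ = ⟪b i, y⟫_ℂ) :
    x = y := by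
  apply b.repr.injective
  ext i
  rw [HilbertBasis.repr_apply_apply, HilbertBasis.repr_apply_apply, h]

theorem op_ext {ι : Type} (b : HilbertBasis ι ℂ H) {S T : H →L[ℂ] H} (h : ∀ i, S (b i) = T (b i)) :
    S = T := by
  have hd := b.dense_span
  refine ContinuousLinearMap.ext_on (s := Set.range b) ?_ ?_
  · exact Submodule.dense_iff_topologicalClosure_eq_top.2 hd
  · rintro _ ⟨i, rfl⟩
    exact h i

/-- functions of an invariant operator have invariant diagonal coefficients -/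
theorem diag_invariant {ι : Type} (b : HilbertBasis ι ℂ H) {T : H →L[ℂ] H} (σ : ι ≃ ι)
    (h : ∀ i j, ⟪b (σ i), T (b (σ j))⟫_ℂ = ⟪b i, T (b j)⟫_ℂ) (f : ℝ → ℝ) (i : ι) :
    ⟪b (σ i), cfc f T (b (σ i))⟫_ℂ = ⟪b i, cfc f T (b i)⟫_ℂ := by
  set U : H →L[ℂ] H := ((perm b σ).toContinuousLinearEquiv : H →L[ℂ] H) with hU
  have hUb : ∀ i, U (b i) = b (σ i) := fun i => perm_apply b σ i
  have hUi : ∀ x y, ⟪U x, U y⟫_ℂ = ⟪x, y⟫_ℂ := fun x y => (perm b σ).inner_map_map x y
  have hcomm : Commute T U := by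
    show T * U = U * T
    refine op_ext b fun j => ?_
    refine ext_basis b fun i => ?_
    rw [ContinuousLinearMap.mul_apply, ContinuousLinearMap.mul_apply, hUb]
    obtain ⟨i, rfl⟩ := σ.surjective i
    rw [h, ← hUb i, hUi]
  have h1 := hcomm.cfc_real f
  have h2 : cfc f T (U (b i)) = U (cfc f T (b i)) := by
    have := congrArg (fun S : H →L[ℂ] H => S (b i)) h1.eq
    exact this
  rw [← hUb i, h2, hUi]

end

end Pool.Agent.H52.LG
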