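import Mathlib
import Pool.Graph.R_seed8.W242.IM.Block

/-! Elementary estimates for the logarithmic Mahler measure of `z ^ 2 - λ z + 1`. -/

set_option autoImplicit false

namespace Pool.Agent.H52.LG

open Pool.Agent.W242.IM

noncomputable section

theorem continuous_big : Continuous big := by
  unfold big
  fun_prop

theorem continuous_phi : Continuous phi := by
  unfold phi
  exact Real.continuous_posLog.comp continuous_big

/-- the excess over `2` -/
def exc (x : ℝ) : ℝ := max (|x| - 2) 0

theorem continuous_exc : Continuous exc := by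
  unfold exc
  fun_prop

theorem exc_nonneg (x : ℝ) : 0 ≤ exc x := le_max_right _ _

theorem exc_eq_zero {x : ℝ} (h : |x| ≤ 2) : exc x = 0 := max_eq_right (by linarith)

theorem le_exc (x : ℝ) : x - 2 ≤ exc x := (sub_le_sub_right (le_abs_self x) 2).trans (le_max_left _ _)

theorem neg_le_exc (x : ℝ) : -x - 2 ≤ exc x :=
  (sub_le_sub_right (neg_le_abs x) 2).trans (le_max_left _ _)

/-- the slope -/
theorem log_half_slope {D x : ℝ} (hD : 2 < D) (h2 : 2 ≤ x) (hx : x ≤ D) :
    Real.log (D / 2) / (D - 2) * (x - 2) ≤ Real.log (x / 2) := by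
  have hc := strictConcaveOn_log_Ioi.concaveOn
  have hpos : 0 < D - 2 := by linarith
  -- x / 2 = a * 1 + b * (D / 2), b = (x - 2) / (D - 2)
  set b : ℝ := (x - 2) / (D - 2) with hb
  have hb0 : 0 ≤ b := div_nonneg (by linarith) hpos.le
  have hb1 : b ≤ 1 := (div_le_one hpos).2 (by linarith)
  have h := hc.2 (Set.mem_Ioi.2 (one_pos : (0 : ℝ) < 1)) (show D / 2 ∈ Set.Ioi (0 : ℝ) from by
    simp only [Set.mem_Ioi]
    linarith) (show 0 ≤ 1 - b by linarith) hb0 (by ring)
  have e : (1 - b) • (1 : ℝ) + b • (D / 2) = x / 2 := by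
    simp only [smul_eq_mul, mul_one]
    rw [hb]
    field_simp
    ring
  rw [e, Real.log_one, smul_zero, zero_add, smul_eq_mul] at h
  calc Real.log (D / 2) / (D - 2) * (x - 2) = b * Real.log (D / 2) := by rw [hb]; ring
    _ ≤ _ := h

theorem slope_ge {D : ℝ} (hD : 2 < D) :
    Real.log D / D / 2 ≤ Real.log (D / 2) / (D - 2) := by
  have hpos : 0 < D - 2 := by linarith
  have hD0 : 0 < D := by linarith
  rcases le_or_gt D 4 with h4 | h4
  · have h1 : 1 - 2 / D ≤ Real.log (D / 2) := by
      have := Real.one_sub_inv_le_log_of_pos (x := D / 2) (by positivity)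
      rwa [inv_div] at this
    have h2 : 1 / D ≤ Real.log (D / 2) / (D - 2) := by
      rw [le_div_iff₀ hpos]
      calc 1 / D * (D - 2) = 1 - 2 / D := by field_simp
        _ ≤ _ := h1
    have h3 : Real.log D ≤ 2 := by
      have h5 : Real.log D ≤ Real.log 4 := Real.log_le_log hD0 h4
      have h6 : Real.log 4 = 2 * Real.log 2 := by
        rw [show (4 : ℝ) = 2 ^ 2 by norm_num, Real.log_pow]
        norm_num
      have := Real.log_two_lt_d9
      linarith
    refine le_trans ?_ h2
    rw [div_div, div_le_div_iff₀ (by positivity) hD0]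
    nlinarith
  · have h1 : Real.log D / 2 ≤ Real.log (D / 2) := by
      rw [Real.log_div hD0.ne' two_ne_zero]
      have h5 : Real.log 4 ≤ Real.log D := Real.log_le_log (by norm_num) h4.le
      have h6 : Real.log 4 = 2 * Real.log 2 := by
        rw [show (4 : ℝ) = 2 ^ 2 by norm_num, Real.log_pow]
        norm_num
      linarith
    have h0 : 0 ≤ Real.log D := Real.log_nonneg (by linarith)
    calc Real.log D / D / 2 = Real.log D / 2 / D := by ring
      _ ≤ Real.log (D / 2) / D := div_le_div_of_nonneg_right h1 hD0.le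
      _ ≤ Real.log (D / 2) / (D - 2) := by
        apply div_le_div_of_nonneg_left _ hpos (by linarith)
        linarith

/-- the excess is bounded by a multiple of `phi` -/
theorem exc_le_phi {D : ℝ} (hD : 2 < D) {x : ℝ} (hx : |x| ≤ D) :
    Real.log D / D / 2 * exc x ≤ phi x := by
  rcases le_or_gt |x| 2 with h | h
  · rw [exc_eq_zero h, mul_zero]
    exact phi_nonneg x
  · have h1 : exc x = |x| - 2 := max_eq_left (by linarith)
    rw [h1]
    calc Real.log D / D / 2 * (|x| - 2) ≤ Real.log (D / 2) / (D - 2) * (|x| - 2) :=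
          mul_le_mul_of_nonneg_right (slope_ge hD) (by linarith)
      _ ≤ Real.log (|x| / 2) := log_half_slope hD h.le hx
      _ ≤ Real.posLog (|x| / 2) := by
        unfold Real.posLog
        exact le_max_right _ _
      _ ≤ phi x := posLog_half_le_phi x

/-- for each `η > 0` there is `s > 0` such that `phi λ ≥ η` implies `|λ| ≥ 2 + s` -/
theorem exists_excess (η : ℝ) (hη : 0 < η) : ∃ s : ℝ, 0 < s ∧ ∀ x : ℝ, η ≤ phi x → 2 + s ≤ |x| := by
  have h0 : phi 2 = 0 := phi_eq_zero (by norm_num)
  have hc := continuous_phi.continuousAt (x := (2 : ℝ))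
  have := (Metric.continuousAt_iff.1 hc) η hη
  obtain ⟨s, hs, h⟩ := this
  refine ⟨s / 2, by linarith, fun x hx => ?_⟩
  by_contra hcon
  push Not at hcon
  have h1 := h (x := 2 + s / 2) (by
    rw [Real.dist_eq, add_sub_cancel_left, abs_of_pos (by linarith)]
    linarith)
  rw [h0, Real.dist_eq, sub_zero, abs_of_nonneg (phi_nonneg _)] at h1
  have h2 : phi x ≤ phi (2 + s / 2) := phi_mono (by
    rw [abs_of_pos (by linarith : (0 : ℝ) < 2 + s / 2)]
    exact hcon.le)
  linarith

end

end Pool.Agent.H52.LG
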