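import Pool.Agent.H52.LG.Fin

/-! Complete graphs. -/

set_option autoImplicit false
set_option linter.unusedSectionVars false
set_option linter.unusedVariables false
set_option linter.deprecated false

namespace Pool.Agent.H52.LG

open Pool.Agent.W242.IM Polynomial
open scoped InnerProductSpace

noncomputable section

variable {ι : Type} [Fintype ι] [DecidableEq ι]

/-- the sum of the basis vectors -/
def uu (ι : Type) [Fintype ι] [DecidableEq ι] : EuclideanSpace ℂ ι :=
  ∑ i, EuclideanSpace.basisFun ι ℂ i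

/-- `v ↦ ⟪u, v⟫ u` -/
def JJ (ι : Type) [Fintype ι] [DecidableEq ι] : EuclideanSpace ℂ ι →L[ℂ] EuclideanSpace ℂ ι :=
  (innerSL ℂ (uu ι)).smulRight (uu ι)

theorem JJ_apply (v : EuclideanSpace ℂ ι) : JJ ι v = ⟪uu ι, v⟫_ℂ • uu ι := rfl

theorem uu_inner (i : ι) : ⟪uu ι, EuclideanSpace.basisFun ι ℂ i⟫_ℂ = 1 := by
  unfold uu
  rw [sum_inner]
  have h := (EuclideanSpace.basisFun ι ℂ).orthonormal
  rw [orthonormal_iff_ite] at h
  rw [Finset.sum_congr rfl fun j _ => h j i, Finset.sum_ite_eq' Finset.univ i fun _ => (1 : ℂ),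
    if_pos (Finset.mem_univ _)]

theorem inner_uu (i : ι) : ⟪EuclideanSpace.basisFun ι ℂ i, uu ι⟫_ℂ = 1 := by
  rw [← inner_conj_symm, uu_inner, map_one]

theorem uu_self : ⟪uu ι, uu ι⟫_ℂ = (Fintype.card ι : ℂ) := by
  nth_rewrite 2 [uu]
  rw [inner_sum]
  simp only [uu_inner, Finset.sum_const, Finset.card_univ, nsmul_eq_mul, mul_one]

theorem JJ_sa : IsSelfAdjoint (JJ ι) := by
  rw [ContinuousLinearMap.isSelfAdjoint_iff_isSymmetric]
  intro x y
  show ⟪JJ ι x, y⟫_ℂ = ⟪x, JJ ι y⟫_ℂ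
  rw [JJ_apply, JJ_apply, inner_smul_left, inner_smul_right, inner_conj_symm]
  ring

theorem JJ_sq : JJ ι * JJ ι = algebraMap ℝ _ (Fintype.card ι : ℝ) * JJ ι := by
  ext1 v
  rw [Algebra.algebraMap_eq_smul_one]
  show JJ ι (JJ ι v) = (Fintype.card ι : ℝ) • JJ ι v
  rw [JJ_apply (JJ ι v), JJ_apply v, inner_smul_right, uu_self]
  rw [mul_comm, mul_smul]
  norm_cast

/-- the adjacency operator of the complete graph -/
def KK (ι : Type) [Fintype ι] [DecidableEq ι] : EuclideanSpace ℂ ι →L[ℂ] EuclideanSpace ℂ ι :=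
  JJ ι - 1

theorem KK_sa : IsSelfAdjoint (KK ι) := by
  rw [ContinuousLinearMap.isSelfAdjoint_iff_isSymmetric]
  intro x y
  show ⟪JJ ι x - x, y⟫_ℂ = ⟪x, JJ ι y - y⟫_ℂ
  rw [inner_sub_left, inner_sub_right, JJ_apply, JJ_apply, inner_smul_left, inner_smul_right,
    inner_conj_symm]
  ring

theorem KK_entry (i j : ι) : ⟪EuclideanSpace.basisFun ι ℂ i, KK ι (EuclideanSpace.basisFun ι ℂ j)⟫_ℂ =
    if i = j then 0 else 1 := by
  have h := (EuclideanSpace.basisFun ι ℂ).orthonormal
  rw [orthonormal_iff_ite] at h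
  unfold KK
  rw [ContinuousLinearMap.sub_apply, ContinuousLinearMap.one_apply, inner_sub_right, JJ_apply,
    inner_smul_right, uu_inner, inner_uu, h]
  split_ifs <;> simp

theorem KK_spec {x : ℝ} (hx : x ∈ spectrum ℝ (KK ι)) : x = -1 ∨ x = Fintype.card ι - 1 := by
  have h1 := spectrum.subset_polynomial_aeval (𝕜 := ℝ) (KK ι)
    ((X + C 1) * (X - C ((Fintype.card ι : ℝ) - 1))) ⟨x, hx, rfl⟩
  have h2 : aeval (KK ι) ((X + C 1) * (X - C ((Fintype.card ι : ℝ) - 1))) = 0 := by
    rw [map_mul, map_add, map_sub, aeval_X, aeval_C, aeval_C, map_one, map_sub, map_one]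
    have h3 : KK ι + 1 = JJ ι := by
      unfold KK
      abel
    have h4 : KK ι - (algebraMap ℝ (EuclideanSpace ℂ ι →L[ℂ] EuclideanSpace ℂ ι)
        (Fintype.card ι : ℝ) - 1) = JJ ι - algebraMap ℝ _ (Fintype.card ι : ℝ) := by
      unfold KK
      abel
    rw [h3, h4, mul_sub, JJ_sq, Algebra.commutes, sub_self]
  rw [h2] at h1
  rcases subsingleton_or_nontrivial (EuclideanSpace ℂ ι →L[ℂ] EuclideanSpace ℂ ι) with hs | hs
  · rw [spectrum.of_subsingleton] at hx
    exact absurd hx (by simp)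
  · rw [spectrum.zero_eq, Set.mem_singleton_iff] at h1
    simp only [eval_mul, eval_add, eval_sub, eval_X, eval_C] at h1
    rcases mul_eq_zero.1 h1 with h | h
    · left
      linarith
    · right
      linarith

theorem KK_cfc (f : ℝ → ℝ) (hf : f (-1) = 0) (hN : (Fintype.card ι : ℝ) ≠ 0) (i : ι) :
    (⟪EuclideanSpace.basisFun ι ℂ i, cfc f (KK ι) (EuclideanSpace.basisFun ι ℂ i)⟫_ℂ).re =
      f (Fintype.card ι - 1) / Fintype.card ι := by
  set a : ℝ := f (Fintype.card ι - 1) / Fintype.card ι with ha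
  have h1 : cfc f (KK ι) = cfc (fun x : ℝ => a * x + a) (KK ι) := by
    refine cfc_congr fun x hx => ?_
    rcases KK_spec hx with rfl | rfl
    · rw [hf]
      ring
    · rw [ha]
      field_simp
      ring
  rw [h1, cfc_affine KK_sa]
  rw [KK_entry, if_pos rfl, OrthonormalBasis.norm_eq_one]
  simp

theorem KK_norm (hN : 2 ≤ Fintype.card ι) : ‖KK ι‖ = Fintype.card ι - 1 := by
  have hN' : (2 : ℝ) ≤ Fintype.card ι := by exact_mod_cast hN
  apply le_antisymm
  · have h4 : ‖cfc (fun x : ℝ => x) (KK ι)‖ ≤ Fintype.card ι - 1 :=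
      norm_cfc_le (by linarith) fun x hx => by
        rw [Real.norm_eq_abs]
        rcases KK_spec hx with rfl | rfl
        · rw [abs_neg, abs_one]
          linarith
        · rw [abs_of_nonneg (by linarith)]
    rwa [cfc_id' ℝ (KK ι) KK_sa] at h4
  · have h1 : KK ι (uu ι) = ((Fintype.card ι - 1 : ℝ) : ℂ) • uu ι := by
      unfold KK
      rw [ContinuousLinearMap.sub_apply, ContinuousLinearMap.one_apply, JJ_apply, uu_self]
      push_cast
      rw [sub_smul, one_smul]
    have h2 := (KK ι).le_opNorm (uu ι)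
    rw [h1, norm_smul, Complex.norm_real, Real.norm_eq_abs, abs_of_nonneg (by linarith)] at h2
    have h3 : 0 < ‖uu ι‖ := by
      rw [norm_pos_iff]
      intro h0
      have := uu_self (ι := ι)
      rw [h0, inner_zero_left] at this
      have h4 : (Fintype.card ι : ℂ) ≠ 0 := by
        have : Fintype.card ι ≠ 0 := by omega
        exact_mod_cast this
      exact h4 this.symm
    exact le_of_mul_le_mul_right h2 h3

end

end Pool.Agent.H52.LG
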